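import Mathlib
import Pool.Agent.H575R3.NetGraph
import Pool.Agent.H575R3.GRWExist

/-!
There is an infinite, connected, locally finite, non-amenable simple graph, with a vertex `o`, such
that the greedy random walk (uniform rule) started at `o` almost surely visits every vertex,
`o` itself included, infinitely often.
-/

open MeasureTheory Finset Pool.Agent.H575R3.GRW
open scoped ENNReal

namespace Pool.Agent.Results.MP_4770bc_pr.RecurrentNonamenable

/-- The set of edges of `G` with exactly one endpoint in the finite set `S`. -/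
def edgeBoundary {V : Type} (G : SimpleGraph V) (S : Finset V) : Set (Sym2 V) :=
  {e | e ∈ G.edgeSet ∧ ∃ v w, v ∈ S ∧ w ∉ S ∧ e = s(v, w)}

/-- `G` is non-amenable: the ratio of the number of edges with exactly one endpoint in `S` to the
number of elements of `S` is bounded below by a positive constant over finite nonempty `S`. -/
def NonAmenable {V : Type} (G : SimpleGraph V) : Prop :=
  ∃ c : ℝ, 0 < c ∧ ∀ S : Finset V, S.Nonempty →
    c ≤ ((edgeBoundary G S).ncard : ℝ) / (S.card : ℝ)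

lemma ncard_edgeBoundary {V : Type} [DecidableEq V] (G : SimpleGraph V) [G.LocallyFinite]
    (S : Finset V) : (edgeBoundary G S).ncard =
      ∑ v ∈ S, ((G.neighborFinset v).filter (fun w => w ∉ S)).card := by
  classical
  set T : Finset ((_ : V) × V) := S.sigma (fun v => (G.neighborFinset v).filter (fun w => w ∉ S))
    with hT
  have h1 : edgeBoundary G S = ((T.image (fun p => s(p.1, p.2)) : Finset (Sym2 V)) : Set (Sym2 V)) := by
    ext e
    simp only [edgeBoundary, Set.mem_ofPred_eq, Finset.coe_image, Set.mem_image, Finset.mem_coe]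
    constructor
    · rintro ⟨he, v, w, hv, hw, rfl⟩
      refine ⟨⟨v, w⟩, ?_, rfl⟩
      rw [hT, Finset.mem_sigma]
      refine ⟨hv, ?_⟩
      simp only [Finset.mem_filter, SimpleGraph.mem_neighborFinset]
      exact ⟨he, hw⟩
    · rintro ⟨⟨v, w⟩, hp, rfl⟩
      rw [hT, Finset.mem_sigma] at hp
      simp only [Finset.mem_filter, SimpleGraph.mem_neighborFinset] at hp
      exact ⟨hp.2.1, v, w, hp.1, hp.2.2, rfl⟩
  rw [h1, Set.ncard_coe_finset, Finset.card_image_of_injOn, hT, Finset.card_sigma]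
  rintro ⟨v, w⟩ hp ⟨v', w'⟩ hp' heq
  rw [hT, Finset.mem_coe, Finset.mem_sigma] at hp hp'
  simp only [Finset.mem_filter] at hp hp'
  simp only [Sym2.eq_iff] at heq
  rcases heq with ⟨rfl, rfl⟩ | ⟨rfl, rfl⟩
  · rfl
  · exact absurd hp.1 hp'.2.2

theorem result : ∃ (V : Type) (_ : DecidableEq V) (G : SimpleGraph V) (_ : G.LocallyFinite) (o : V),
    Infinite V ∧ G.Connected ∧ NonAmenable G ∧
    (∃ (Ω : Type) (_ : MeasurableSpace Ω) (P : Measure Ω) (X : ℕ → Ω → V), IsGRW G o P X) ∧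
    ∀ (Ω : Type) (_ : MeasurableSpace Ω) (P : Measure Ω) (X : ℕ → Ω → V), IsGRW G o P X →
      P {ω | ∀ v : V, ∀ n, ∃ t, n ≤ t ∧ X t ω = v} = 1 := by
  refine ⟨Pool.Agent.H575R3.Net.Vx Pool.Agent.H575R3.Net.CY, inferInstance,
    Pool.Agent.H575R3.Net.gr Pool.Agent.H575R3.Net.CY, inferInstance, Pool.Agent.H575R3.Net.rt,
    Pool.Agent.H575R3.Net.infinite, Pool.Agent.H575R3.Net.connected, ?_, ?_, ?_⟩
  · refine ⟨1 / 1787, by norm_num, fun S hS => ?_⟩
    have h1 := Pool.Agent.H575R3.Net.nonamenable S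
    rw [ncard_edgeBoundary]
    have h2 : (0 : ℝ) < S.card := by exact_mod_cast Finset.card_pos.mpr hS
    rw [le_div_iff₀ h2]
    exact h1
  · obtain ⟨m, P, h⟩ := exists_isGRW (Pool.Agent.H575R3.Net.gr Pool.Agent.H575R3.Net.CY)
      Pool.Agent.H575R3.Net.nbr_nonempty Pool.Agent.H575R3.Net.rt
    exact ⟨_, m, P, _, h⟩
  · intro Ω mΩ P X h
    have hprob : IsProbabilityMeasure P := ⟨h.prob⟩
    have h1 : ∀ᵐ ω ∂P, ∀ p : {p : Pool.Agent.H575R3.Net.Vx Pool.Agent.H575R3.Net.CY ×
        Pool.Agent.H575R3.Net.Vx Pool.Agent.H575R3.Net.CY //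
        (Pool.Agent.H575R3.Net.gr Pool.Agent.H575R3.Net.CY).Adj p.1 p.2},
        (∀ n, ∃ t, n ≤ t ∧ X t ω = p.1.1) → (∀ n, ∃ t, n ≤ t ∧ X t ω = p.1.2) :=
      ae_all_iff.mpr (fun p => h.io_neighbor p.2)
    have h2 := Pool.Agent.H575R3.Net.recurrent Pool.Agent.H575R3.Net.connected h
    have h3 : ∀ᵐ ω ∂P, ∀ v, ∀ n, ∃ t, n ≤ t ∧ X t ω = v := by
      filter_upwards [h1, h2] with ω q1 q2
      have hwalk : ∀ u w, (Pool.Agent.H575R3.Net.gr Pool.Agent.H575R3.Net.CY).Walk u w →
          (∀ n, ∃ t, n ≤ t ∧ X t ω = u) → (∀ n, ∃ t, n ≤ t ∧ X t ω = w) := by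
        intro u w p
        induction p with
        | nil => exact id
        | cons hadj p ih => exact fun hh => ih (q1 ⟨(_, _), hadj⟩ hh)
      intro w
      obtain ⟨p⟩ := Pool.Agent.H575R3.Net.connected.preconnected Pool.Agent.H575R3.Net.rt w
      exact hwalk _ _ p q2
    have h4 : {ω | ∀ v, ∀ n, ∃ t, n ≤ t ∧ X t ω = v} =ᵐ[P] Set.univ :=
      Filter.eventuallyEq_univ.mpr h3
    rw [measure_congr h4]
    exact h.prob

end Pool.Agent.Results.MP_4770bc_pr.RecurrentNonamenable
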